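import Pool.Agent.Q28.HJ.PDefs

/-!
# The motivic Mumford–Tate conjecture for hypersurfaces: definitions
-/

open CategoryTheory MonoidalCategory

universe v u w

namespace Pool.Agent.Q129.MT

open Pool.Agent.Q28.HJ

/-- A finitely generated field `k` of characteristic zero, a prime number `ℓ`, the category `𝓜` of
motives over `k` (in the sense of André, or for absolute Hodge cycles), and the hypersurfaces over
`k`: their dimensions, degrees and primitive motives. -/
structure MTData (𝓜 : Type u) [Category.{v} 𝓜] where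
  /-- the Lefschetz motive -/
  L : 𝓜
  /-- the hypersurfaces `X` in projective spaces `ℙ^(n+1)` over `k`, `n ≥ 0` -/
  Hyp : Type w
  /-- the dimension `n` -/
  dim : Hyp → ℕ
  /-- the degree -/
  deg : Hyp → ℕ
  /-- the hypersurface is smooth -/
  Smooth : Hyp → Prop
  /-- the primitive motive `M_X` of a smooth hypersurface `X`: its realisations are the primitive
  cohomology of `X`, of degree `n = dim X` -/
  prim : Hyp → 𝓜
  /-- the relation `Susp X W`: `X` is a smooth hypersurface with equation `f(x) = 0` of degree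
  `d ≥ 2`, and `W` is the hypersurface with equation `f(x) + y^d - z^d = 0` over `k` -/
  Susp : Hyp → Hyp → Prop
  /-- the dimension of the `ℓ`-adic monodromy group `G_{ℓ,k}(M)`, the Zariski closure of the image
  of the Galois group of `k` -/
  dimL : 𝓜 → ℕ
  /-- the dimension of the motivic Galois group `𝒢_k(M)` -/
  dimG : 𝓜 → ℕ

namespace MTData

variable {𝓜 : Type u} [Category.{v} 𝓜]

/-- **The motivic Mumford–Tate conjecture** for `M` and `ℓ`: since `G_{ℓ,k}(M)` is contained in
`𝒢_k(M)` over `ℚ_ℓ`, the identity components of the two groups are equal if and only if their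
dimensions are equal. -/
def MT (T : MTData.{v, u, w} 𝓜) (M : 𝓜) : Prop := T.dimL M = T.dimG M

variable [Preadditive 𝓜] [MonoidalCategory 𝓜] [Limits.HasBinaryBiproducts 𝓜]

/-- `M_{X_1} ⊞ (M_{X_2} ⊞ ⋯ ⊞ L)`; it generates the same Tannakian category as the motives of all
products of powers of the hypersurfaces `X_1, …, X_r`. -/
noncomputable def total (T : MTData.{v, u, w} 𝓜) : List T.Hyp → 𝓜
  | [] => T.L
  | X :: l => T.prim X ⊞ T.total l

variable (T : MTData.{v, u, w} 𝓜)

/-- Known facts on hypersurfaces over `k`.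
* `join` (Shioda, Katsura): for smooth hypersurfaces `X : f(x) = 0` and `Y : g(y) = 0` of the same
  degree, `M_X ⊗ M_Y ⊗ L` is a direct summand of `M_W`, `W : f(x) + g(y) = 0`. (Take the family of
  the lines in `W` which join the points of `X` and of `Y`.)
* `susp`, `susp_prop`: the case where `Y` is given by `y^d - z^d = 0`, `d ≥ 2`; the Galois group of
  `k` has at least two orbits on the points of `Y`, so the unit motive is a direct summand of `M_Y`.
* `cover`: for a smooth hypersurface `X : f(x) = 0`, in general coordinates, and `e ≥ 1` the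
  hypersurface `X' : f(x_0^e, x_1^e, …) = 0` is smooth and has a finite morphism to `X`.
* `deg_pos`, `curve`: degrees are positive; there are smooth plane curves of all degrees over `k`.
* `poincare`: for `X` of degree at least three and dimension `n` the primitive cohomology is not
  zero, and Poincare duality makes `L^n` a direct summand of `M_X ⊗ M_X`.
* `le`: `G_{ℓ,k}(M)` is contained in `𝒢_k(M)` over `ℚ_ℓ`.
* `fibre`: for `N` in `⟨M⟩` the groups of `M` map onto the groups of `N`, and the kernel for
  `G_{ℓ,k}` is contained in the kernel for `𝒢_k`.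
* `isogeny`: the groups of `N_1 ⊞ ⋯ ⊞ N_r` are finite coverings of the groups of
  `N_1 ⊗ N_1 ⊞ ⋯ ⊞ N_r ⊗ N_r`: the elements of the kernel are `±1` on each `N_j`. -/
structure Facts : Prop where
  join : ∀ X Y : T.Hyp, T.Smooth X → T.Smooth Y → T.deg X = T.deg Y → ∃ W, T.Smooth W ∧
    T.deg W = T.deg X ∧ T.dim W = T.dim X + T.dim Y + 2 ∧
      Nonempty (Retract ((T.prim X ⊗ T.prim Y) ⊗ T.L) (T.prim W))
  susp : ∀ X : T.Hyp, T.Smooth X → 2 ≤ T.deg X → ∃ W, T.Susp X W
  susp_prop : ∀ X W : T.Hyp, T.Susp X W → T.Smooth W ∧ T.deg W = T.deg X ∧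
    T.dim W = T.dim X + 2 ∧ Nonempty (Retract (T.prim X ⊗ T.L) (T.prim W))
  cover : ∀ (X : T.Hyp) (e : ℕ), T.Smooth X → 0 < e → ∃ X', T.Smooth X' ∧
    T.deg X' = T.deg X * e ∧ T.dim X' = T.dim X ∧ Nonempty (Retract (T.prim X) (T.prim X'))
  deg_pos : ∀ X : T.Hyp, 0 < T.deg X
  curve : ∀ d, 0 < d → ∃ C : T.Hyp, T.Smooth C ∧ T.dim C = 1 ∧ T.deg C = d
  poincare : ∀ X : T.Hyp, T.Smooth X → 3 ≤ T.deg X →
    Nonempty (Retract (pow T.L (T.dim X)) (T.prim X ⊗ T.prim X))
  le : ∀ M : 𝓜, T.dimL M ≤ T.dimG M
  fibre : ∀ M N : 𝓜, Below T.L M N → T.dimG N + T.dimL M ≤ T.dimG M + T.dimL N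
  isogeny : ∀ A B : 𝓜, Squares A B → T.dimL A = T.dimL B ∧ T.dimG A = T.dimG B

end MTData

end Pool.Agent.Q129.MT
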