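import Pool.Agent.Q129.MT.Defs
import Pool.Agent.Q28.HJ.Per

/-!
# The motivic Mumford–Tate conjecture for products of hypersurfaces
-/

open CategoryTheory MonoidalCategory Limits

universe v u w

namespace Pool.Agent.Q129.MT

open Pool.Agent.Q28.HJ

variable {𝓜 : Type u} [Category.{v} 𝓜]

/-- the data with trivial Chow groups, for the machine `PeriodData` -/
def MTData.toPer (T : MTData.{v, u, w} 𝓜) : PeriodData.{v, u, w} 𝓜 where
  L := T.L
  Hyp := T.Hyp
  dim := T.dim
  deg := T.deg
  Smooth := T.Smooth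
  prim := T.prim
  Susp := T.Susp
  A := fun _ _ => PUnit
  h := fun _ _ => PUnit.unit
  mulh := fun _ _ => 0
  Sec := fun _ => PEmpty
  sec := fun s => s.elim
  push := fun s _ => s.elim
  res := fun s _ => s.elim
  trdeg := T.dimL
  gdim := T.dimG

variable [Preadditive 𝓜] [MonoidalCategory 𝓜] [Limits.HasBinaryBiproducts 𝓜]

lemma facts {T : MTData.{v, u, w} 𝓜} (hT : T.Facts) : T.toPer.Facts where
  join := hT.join
  susp := hT.susp
  susp_prop := hT.susp_prop
  cover := hT.cover
  deg_pos := hT.deg_pos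
  curve := hT.curve
  poincare := hT.poincare
  le := hT.le
  fibre := hT.fibre
  isogeny := hT.isogeny

lemma total_eq (T : MTData.{v, u, w} 𝓜) (l : List T.Hyp) : T.toPer.total l = T.total l := by
  induction l with
  | nil => rfl
  | cons X l ih =>
    change (T.prim X ⊞ T.toPer.total l) = (T.prim X ⊞ T.total l)
    rw [ih]

variable [BraidedCategory 𝓜]

theorem final {T : MTData.{v, u, w} 𝓜} (hT : T.Facts) (S : Set (ℕ × ℕ)) (hS : AnyCofinal S)
    (ω : ℕ → ℕ) (hω : Filter.Tendsto ω Filter.atTop Filter.atTop) :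
    (∀ X W : T.Hyp, T.Smooth X → Relation.ReflTransGen T.Susp X W →
      (T.dim W, T.deg W) ∈ S → T.dim X ≤ ω (T.dim W) → T.MT (T.prim W ⊞ T.L)) ↔
    ∀ l : List T.Hyp, (∀ X ∈ l, T.Smooth X) → ∀ N, Below T.L (T.total l) N → T.MT N := by
  have h := PeriodData.final (facts hT) S hS ω hω
  constructor
  · intro h1 l hl N hN
    have h2 := h.1 h1 l hl N
    rw [total_eq] at h2
    exact h2 hN
  · intro h1
    apply h.2
    intro l hl N hN
    rw [total_eq] at hN
    exact h1 l hl N hN

end Pool.Agent.Q129.MT
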